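import Mathlib

/-!
# Unbounded solutions of `x_{n+1} = (β x_n + x_{n-1}) / x_{n-2}`

For every `0 < β < 1` there is an open set of initial values whose solutions are unbounded.

Idea: if `x_0 = a` and `x_2 = e` are large and `x_1 = c` is of order one, then, up to relative errors
`O(1 / min a e)`, the next eight terms are `β e / a`, `e / c`, `β / c`, `a / (β c)`, `a / e`,
`a / β ^ 2`, `c`, `e / β ^ 2`.  So after eight steps one is in the same situation, with `a` and `e`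
multiplied by nearly `β ^ (-2) > 1`; the relative errors form a convergent series.

The indices are shifted by two: `x n` is the term `x_{n-2}` of the problem.
-/

set_option autoImplicit false

namespace Pool.Agent.Results.MP_1cbbe5_an.UnboundedSolutions

/-- `x` and `y` agree up to the factor `q ^ k` -/
def Near (q : ℝ) (k : ℕ) (x y : ℝ) : Prop := 0 < x ∧ 0 < y ∧ x ≤ y * q ^ k ∧ y ≤ x * q ^ k

lemma Near.refl {q : ℝ} {x : ℝ} (hx : 0 < x) : Near q 0 x x := by
  refine ⟨hx, hx, ?_, ?_⟩ <;> simp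

lemma Near.mul {q : ℝ} (hq : 0 < q) {k l : ℕ} {x y z w : ℝ} (h : Near q k x y) (h' : Near q l z w) :
    Near q (k + l) (x * z) (y * w) := by
  obtain ⟨a, b, c, d⟩ := h
  obtain ⟨a', b', c', d'⟩ := h'
  have hk : 0 < q ^ k := by positivity
  have hl : 0 < q ^ l := by positivity
  refine ⟨by positivity, by positivity, ?_, ?_⟩
  · calc x * z ≤ (y * q ^ k) * (w * q ^ l) := mul_le_mul c c' a'.le (by positivity)
      _ = _ := by rw [pow_add]; ring
  · calc y * w ≤ (x * q ^ k) * (z * q ^ l) := mul_le_mul d d' b'.le (by positivity)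
      _ = _ := by rw [pow_add]; ring

lemma Near.inv {q : ℝ} (hq : 0 < q) {k : ℕ} {x y : ℝ} (h : Near q k x y) :
    Near q k x⁻¹ y⁻¹ := by
  obtain ⟨a, b, c, d⟩ := h
  have hk : 0 < q ^ k := by positivity
  refine ⟨by positivity, by positivity, ?_, ?_⟩
  · rw [inv_mul_eq_div, le_div_iff₀ b, inv_mul_le_iff₀ a]
    linarith
  · rw [inv_mul_eq_div, le_div_iff₀ a, inv_mul_le_iff₀ b]
    linarith

lemma Near.div {q : ℝ} (hq : 0 < q) {k l : ℕ} {x y z w : ℝ} (h : Near q k x y) (h' : Near q l z w) :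
    Near q (k + l) (x / z) (y / w) := by
  rw [div_eq_mul_inv, div_eq_mul_inv]
  exact h.mul hq (h'.inv hq)

/-- adding a relatively small term -/
lemma Near.add_small {η : ℝ} (hη : 0 ≤ η) {k : ℕ} {x y z : ℝ} (h : Near (1 + η) k x y) (hz : 0 < z)
    (hzx : z ≤ η * x) : Near (1 + η) (k + 1) (x + z) y := by
  obtain ⟨a, b, c, d⟩ := h
  have hk : 0 < (1 + η) ^ k := by positivity
  refine ⟨by positivity, b, ?_, ?_⟩
  · calc x + z ≤ x * (1 + η) := by linarith
      _ ≤ (y * (1 + η) ^ k) * (1 + η) := mul_le_mul_of_nonneg_right c (by linarith)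
      _ = _ := by rw [pow_succ]; ring
  · have h1 : x * (1 + η) ^ k ≤ (x + z) * (1 + η) ^ (k + 1) := by
      rw [pow_succ]
      have : x ≤ (x + z) * (1 + η) := by nlinarith
      nlinarith
    linarith

lemma pow_bound {η : ℝ} (h0 : 0 ≤ η) (h1 : η ≤ 1) (n : ℕ) : (1 + η) ^ n ≤ 1 + (2 ^ n - 1) * η := by
  induction n with
  | zero => simp
  | succ n ih =>
    have h2 : (0 : ℝ) ≤ 2 ^ n - 1 := by
      have : (1 : ℝ) ≤ 2 ^ n := one_le_pow₀ (by norm_num)
      linarith
    calc (1 + η) ^ (n + 1) = (1 + η) ^ n * (1 + η) := pow_succ _ _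
      _ ≤ (1 + (2 ^ n - 1) * η) * (1 + η) := mul_le_mul_of_nonneg_right ih (by linarith)
      _ ≤ 1 + (2 ^ (n + 1) - 1) * η := by
        rw [pow_succ]
        nlinarith [mul_nonneg h2 h0, mul_nonneg (mul_nonneg h2 h0) (sub_nonneg.2 h1)]

/-- one period of the recursion -/
lemma period {β η m : ℝ} (hβ : 0 < β) (hβ1 : β < 1) (hη : 0 < η) (hη1 : η ≤ 1)
    (hm : 0 < m) (hηm : 200000 / β ≤ η * m) (x : ℕ → ℝ)
    (hx : ∀ n, x (n + 3) = (β * x (n + 2) + x (n + 1)) / x n)
    (ha : m ≤ x 0) (hc1 : 1 / 2 ≤ x 1) (hc2 : x 1 ≤ 2) (he : m ≤ x 2) :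
    (∀ n < 11, 0 < x n) ∧ Near (1 + η) 6 (x 8) (x 0 / β ^ 2) ∧ Near (1 + η) 10 (x 9) (x 1) ∧
      Near (1 + η) 12 (x 10) (x 2 / β ^ 2) := by
  set q := 1 + η with hq
  have hq0 : 0 < q := by positivity
  have hq2 : q ≤ 2 := by linarith
  have hqk : ∀ k : ℕ, q ^ k ≤ 2 ^ k := fun k => pow_le_pow_left₀ hq0.le hq2 k
  set a := x 0 with hadef
  set c := x 1 with hcdef
  set e := x 2 with hedef
  have ha0 : 0 < a := lt_of_lt_of_le hm ha
  have hc0 : 0 < c := by linarith
  have he0 : 0 < e := lt_of_lt_of_le hm he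
  have hb : 200000 ≤ η * m * β := by
    rw [div_le_iff₀ hβ] at hηm
    exact hηm
  have hηa : 200000 ≤ η * a * β := hb.trans (by gcongr)
  have hηe : 200000 ≤ η * e * β := hb.trans (by gcongr)
  have hηa' : 200000 ≤ η * a := by nlinarith [mul_pos hη ha0]
  have hηe' : 200000 ≤ η * e := by nlinarith [mul_pos hη he0]
  have hβ2 : β ^ 2 < β := by nlinarith
  have h3 : x 3 = (β * e + c) / a := hx 0
  have h4 : x 4 = (β * x 3 + e) / c := hx 1
  have h5 : x 5 = (β * x 4 + x 3) / e := hx 2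
  have h6 : x 6 = (β * x 5 + x 4) / x 3 := hx 3
  have h7 : x 7 = (β * x 6 + x 5) / x 4 := hx 4
  have h8 : x 8 = (β * x 7 + x 6) / x 5 := hx 5
  have h9 : x 9 = (β * x 8 + x 7) / x 6 := hx 6
  have h10 : x 10 = (β * x 9 + x 8) / x 7 := hx 7
  have Nβ : Near q 0 β β := Near.refl hβ
  -- x 3
  have N3 : Near q 1 (x 3) (β * e / a) := by
    rw [h3]
    have h := (Near.refl (q := q) (x := β * e) (by positivity)).add_small hη.le hc0
      (by nlinarith)
    exact h.div hq0 (Near.refl ha0)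
  have p3 := N3.1
  have b3 : x 3 ≤ 2 * (β * e / a) := by
    have := N3.2.2.1
    have h := hqk 1
    nlinarith [N3.2.1]
  have b3' : a * x 3 ≤ 2 * (β * e) := by
    have : a * x 3 ≤ a * (2 * (β * e / a)) := mul_le_mul_of_nonneg_left b3 ha0.le
    refine this.trans (le_of_eq ?_)
    field_simp
  -- x 4
  have s4 : β * x 3 ≤ η * e := by
    have h : a * (β * x 3) ≤ a * (η * e) := by
      have h1 : a * (β * x 3) ≤ β * (2 * (β * e)) := by nlinarith
      have h2 : β * (2 * (β * e)) ≤ 2 * e := by nlinarith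
      nlinarith
    exact le_of_mul_le_mul_left h ha0
  have N4 : Near q 1 (x 4) (e / c) := by
    rw [h4, add_comm]
    have h := (Near.refl (q := q) (x := e) he0).add_small hη.le (z := β * x 3) (by positivity) s4
    exact h.div hq0 (Near.refl hc0)
  have p4 := N4.1
  have l4 : e / 2 ≤ x 4 := by
    rw [h4, le_div_iff₀ hc0]
    nlinarith [mul_pos hβ p3]
  -- x 5
  have s5 : x 3 ≤ η * (β * x 4) := by
    have h : a * x 3 ≤ a * (η * (β * x 4)) := by
      have h1 : β * (e / 2) * (η * a) ≤ β * x 4 * (η * a) := by gcongr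
      nlinarith [mul_pos hβ he0]
    exact le_of_mul_le_mul_left h ha0
  have N5 : Near q 2 (x 5) (β / c) := by
    rw [h5]
    have h := ((Nβ.mul hq0 N4).add_small hη.le p3 s5).div hq0 (Near.refl (q := q) he0)
    have e1 : β * (e / c) / e = β / c := by field_simp
    rw [e1] at h
    exact h
  have p5 := N5.1
  have b5 : x 5 ≤ 8 * β := by
    have h := N5.2.2.1
    have h1 := hqk 2
    have h2 : β / c ≤ 2 * β := by
      rw [div_le_iff₀ hc0]; nlinarith
    calc x 5 ≤ β / c * q ^ 2 := h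
      _ ≤ 2 * β * 2 ^ 2 := mul_le_mul h2 h1 (by positivity) (by positivity)
      _ = 8 * β := by ring
  -- x 6
  have s6 : β * x 5 ≤ η * x 4 := by
    have : η * (e / 2) ≤ η * x 4 := by gcongr
    nlinarith
  have N6 : Near q 3 (x 6) (a / (β * c)) := by
    rw [h6, add_comm (β * x 5)]
    have h := (N4.add_small hη.le (z := β * x 5) (by positivity) s6).div hq0 N3
    have e1 : e / c / (β * e / a) = a / (β * c) := by field_simp
    rw [e1] at h
    exact h
  have p6 := N6.1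
  have l6 : a / (16 * β) ≤ x 6 := by
    have h := N6.2.2.2
    have h1 := hqk 3
    have h2 : a / (2 * β) ≤ a / (β * c) := by
      apply div_le_div_of_nonneg_left ha0.le (by positivity)
      nlinarith
    have h3 : a / (2 * β) ≤ x 6 * 8 := by
      calc a / (2 * β) ≤ a / (β * c) := h2
        _ ≤ x 6 * q ^ 3 := h
        _ ≤ x 6 * 2 ^ 3 := by gcongr
        _ = x 6 * 8 := by norm_num
    have e1 : a / (16 * β) = a / (2 * β) / 8 := by field_simp; norm_num
    rw [e1]; linarith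
  have l6' : a / 16 ≤ β * x 6 := by
    have : β * (a / (16 * β)) ≤ β * x 6 := by gcongr
    refine le_trans (le_of_eq ?_) this
    field_simp
  -- x 7
  have s7 : x 5 ≤ η * (β * x 6) := by
    have : η * (a / 16) ≤ η * (β * x 6) := by gcongr
    nlinarith
  have N7 : Near q 5 (x 7) (a / e) := by
    rw [h7]
    have h := ((Nβ.mul hq0 N6).add_small hη.le p5 s7).div hq0 N4
    have e1 : β * (a / (β * c)) / (e / c) = a / e := by field_simp
    rw [e1] at h
    exact h
  have p7 := N7.1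
  have b7 : x 7 ≤ 32 * (a / e) := by
    have h := N7.2.2.1
    have h1 := hqk 5
    calc x 7 ≤ a / e * q ^ 5 := h
      _ ≤ a / e * 2 ^ 5 := by gcongr
      _ = 32 * (a / e) := by ring
  have b7' : e * x 7 ≤ 32 * a := by
    have : e * x 7 ≤ e * (32 * (a / e)) := by gcongr
    refine this.trans (le_of_eq ?_)
    field_simp
  -- x 8
  have s8 : β * x 7 ≤ η * x 6 := by
    have h : e * (β * x 7) ≤ e * (η * x 6) := by
      have h1 : e * (β * x 7) ≤ 32 * a := by nlinarith [mul_pos he0 p7]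
      have h2 : a / 16 ≤ x 6 := by nlinarith
      have h3 : η * e * (a / 16) ≤ η * e * x 6 := by gcongr
      nlinarith
    exact le_of_mul_le_mul_left h he0
  have N8 : Near q 6 (x 8) (a / β ^ 2) := by
    rw [h8, add_comm (β * x 7)]
    have h := (N6.add_small hη.le (z := β * x 7) (by positivity) s8).div hq0 N5
    have e1 : a / (β * c) / (β / c) = a / β ^ 2 := by field_simp
    rw [e1] at h
    exact h
  have p8 := N8.1
  have l8 : a / 64 ≤ β ^ 2 * x 8 := by
    have h := N8.2.2.2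
    have h1 := hqk 6
    have h3 : a / β ^ 2 ≤ x 8 * 64 := by
      calc a / β ^ 2 ≤ x 8 * q ^ 6 := h
        _ ≤ x 8 * 2 ^ 6 := by gcongr
        _ = x 8 * 64 := by norm_num
    rw [div_le_iff₀ (by positivity)] at h3
    linarith
  -- x 9
  have s9 : x 7 ≤ η * (β * x 8) := by
    have h : e * x 7 ≤ e * (η * (β * x 8)) := by
      have h2 : a / 64 ≤ β * x 8 := by nlinarith [mul_pos hβ p8]
      have h3 : η * e * (a / 64) ≤ η * e * (β * x 8) := by gcongr
      nlinarith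
    exact le_of_mul_le_mul_left h he0
  have N9 : Near q 10 (x 9) c := by
    rw [h9]
    have h := ((Nβ.mul hq0 N8).add_small hη.le p7 s9).div hq0 N6
    have e1 : β * (a / β ^ 2) / (a / (β * c)) = c := by field_simp
    rw [e1] at h
    exact h
  have p9 := N9.1
  have b9 : x 9 ≤ 2048 := by
    have h := N9.2.2.1
    have h1 := hqk 10
    calc x 9 ≤ c * q ^ 10 := h
      _ ≤ 2 * 2 ^ 10 := mul_le_mul hc2 h1 (by positivity) (by positivity)
      _ = 2048 := by norm_num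
  -- x 10
  have s10 : β * x 9 ≤ η * x 8 := by
    have h2 : a / 64 ≤ x 8 := by nlinarith
    have h3 : η * (a / 64) ≤ η * x 8 := by gcongr
    nlinarith
  have N10 : Near q 12 (x 10) (e / β ^ 2) := by
    rw [h10, add_comm (β * x 9)]
    have h := (N8.add_small hη.le (z := β * x 9) (by positivity) s10).div hq0 N7
    have e1 : a / β ^ 2 / (a / e) = e / β ^ 2 := by field_simp
    rw [e1] at h
    exact h
  refine ⟨?_, N8, N9, N10⟩
  intro n hn
  interval_cases n
  · exact ha0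
  · exact hc0
  · exact he0
  · exact p3
  · exact p4
  · exact p5
  · exact p6
  · exact p7
  · exact p8
  · exact p9
  · exact N10.1

lemma near_lower {η : ℝ} (h0 : 0 ≤ η) (h1 : η ≤ 1) {k : ℕ} {x y ρ : ℝ} (h : Near (1 + η) k x (y * ρ))
    {σ : ℝ} (hσ : σ * (1 + 2 ^ k * η) ≤ ρ) (hy : 0 < y) : y * σ ≤ x := by
  obtain ⟨a, b, c, d⟩ := h
  have h2 := pow_bound h0 h1 k
  have h3 : y * ρ ≤ x * (1 + 2 ^ k * η) := by
    refine d.trans (mul_le_mul_of_nonneg_left (h2.trans ?_) a.le)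
    nlinarith
  have h4 : 0 < 1 + 2 ^ k * η := by positivity
  have h5 : (y * σ) * (1 + 2 ^ k * η) ≤ x * (1 + 2 ^ k * η) := by
    have : y * (σ * (1 + 2 ^ k * η)) ≤ y * ρ := mul_le_mul_of_nonneg_left hσ hy.le
    nlinarith
  exact le_of_mul_le_mul_right h5 h4

lemma near_dist {η : ℝ} (h0 : 0 ≤ η) (h1 : η ≤ 1) {x y : ℝ} (h : Near (1 + η) 10 x y)
    (hy : y ≤ 2) : |x - y| ≤ 2048 * η := by
  obtain ⟨a, b, c, d⟩ := h
  have h2 := pow_bound h0 h1 10
  norm_num at h2
  have h3 : x ≤ y * (1 + 1023 * η) := c.trans (mul_le_mul_of_nonneg_left h2 b.le)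
  have h4 : y ≤ x * (1 + 1023 * η) := d.trans (mul_le_mul_of_nonneg_left h2 a.le)
  rw [abs_le]
  constructor
  · by_cases hxy : x ≤ y
    · nlinarith [mul_nonneg h0 (sub_nonneg.2 hxy)]
    · push Not at hxy
      nlinarith
  · nlinarith

/-- the growth along the period -/
lemma growth {β : ℝ} (hβ : 0 < β) (hβ1 : β < 1) : ∃ M ρ : ℝ, 0 < M ∧ 1 < ρ ∧ ∀ x : ℕ → ℝ,
    (∀ n, x (n + 3) = (β * x (n + 2) + x (n + 1)) / x n) → M ≤ x 0 → |x 1 - 1| ≤ 1 / 4 → M ≤ x 2 →
    ∀ k : ℕ, M * ρ ^ k ≤ x (8 * k) ∧ M * ρ ^ k ≤ x (8 * k + 2) ∧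
      |x (8 * k + 1) - 1| ≤ 1 / 2 - 1 / 4 * (1 / ρ) ^ k ∧ ∀ n < 11, 0 < x (8 * k + n) := by
  obtain ⟨s, hs⟩ : ∃ s : ℝ, s = 1 / β ^ 2 := ⟨_, rfl⟩
  have hs1 : 1 < s := by
    rw [hs, lt_div_iff₀ (by positivity)]
    nlinarith
  obtain ⟨ρ, hρ⟩ : ∃ ρ : ℝ, ρ = (1 + s) / 2 := ⟨_, rfl⟩
  have hρ1 : 1 < ρ := by linarith
  have hρs : ρ < s := by linarith
  obtain ⟨C, hC⟩ : ∃ C : ℝ, C = 200000 / β := ⟨_, rfl⟩
  have hC0 : 0 < C := by rw [hC]; positivity
  obtain ⟨M, hM⟩ : ∃ M : ℝ, M = C + 4096 * C * ρ / (s - ρ) + 8192 * C * ρ / (ρ - 1) := ⟨_, rfl⟩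
  have hd1 : 0 < s - ρ := by linarith
  have hd2 : 0 < ρ - 1 := by linarith
  have hρ0 : 0 < ρ := by linarith
  have t1 : 0 < 4096 * C * ρ / (s - ρ) := by positivity
  have t2 : 0 < 8192 * C * ρ / (ρ - 1) := by positivity
  have hM0 : 0 < M := by rw [hM]; positivity
  have m1 : C ≤ M := by linarith
  have m2 : 4096 * C * ρ ≤ M * (s - ρ) := by
    have : 4096 * C * ρ / (s - ρ) ≤ M := by linarith
    rwa [div_le_iff₀ hd1] at this
  have m3 : 8192 * C * ρ ≤ M * (ρ - 1) := by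
    have : 8192 * C * ρ / (ρ - 1) ≤ M := by linarith
    rwa [div_le_iff₀ hd2] at this
  refine ⟨M, ρ, hM0, hρ1, fun x hx hx0 hx1 hx2 => ?_⟩
  -- one step of the induction
  have key : ∀ k : ℕ, M * ρ ^ k ≤ x (8 * k) → M * ρ ^ k ≤ x (8 * k + 2) →
      |x (8 * k + 1) - 1| ≤ 1 / 2 - 1 / 4 * (1 / ρ) ^ k →
      (∀ n < 11, 0 < x (8 * k + n)) ∧ M * ρ ^ (k + 1) ≤ x (8 * (k + 1)) ∧
        M * ρ ^ (k + 1) ≤ x (8 * (k + 1) + 2) ∧
        |x (8 * (k + 1) + 1) - 1| ≤ 1 / 2 - 1 / 4 * (1 / ρ) ^ (k + 1) := by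
    intro k ha he hc
    have hρk : 1 ≤ ρ ^ k := one_le_pow₀ hρ1.le
    have hρk0 : 0 < ρ ^ k := by positivity
    obtain ⟨η, hη⟩ : ∃ η : ℝ, η = C / (M * ρ ^ k) := ⟨_, rfl⟩
    have hη0 : 0 < η := by rw [hη]; positivity
    have hηm : η * (M * ρ ^ k) = C := by rw [hη]; field_simp
    have hη1 : η ≤ C / M := by
      rw [hη]
      apply div_le_div_of_nonneg_left hC0.le hM0
      nlinarith
    have hCM : C / M ≤ 1 := by rw [div_le_one hM0]; exact m1
    have hkey : ρ * (1 + 4096 * η) ≤ s := by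
      have h1 : ρ * (4096 * η) ≤ ρ * (4096 * (C / M)) := by gcongr
      have h2 : ρ * (4096 * (C / M)) ≤ s - ρ := by
        have : ρ * (4096 * (C / M)) = 4096 * C * ρ / M := by ring
        rw [this, div_le_iff₀ hM0]
        linarith
      linarith
    have hpw : 0 < (1 / ρ) ^ k := by positivity
    have hpw1 : (1 / ρ) ^ k * ρ ^ k = 1 := by
      rw [← mul_pow, one_div, inv_mul_cancel₀ hρ0.ne', one_pow]
    have hc' := abs_le.1 hc
    have P := period (m := M * ρ ^ k) hβ hβ1 hη0 (hη1.trans hCM) (by positivity)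
      (by rw [hηm, hC]) (fun n => x (8 * k + n)) (fun n => hx (8 * k + n)) ha
      (by linarith [hc'.1]) (by linarith [hc'.2]) he
    obtain ⟨P0, P8, P9, P10⟩ := P
    have hηle : η ≤ 1 := hη1.trans hCM
    refine ⟨P0, ?_, ?_, ?_⟩
    · have e1 : x (8 * k + 0) / β ^ 2 = x (8 * k) * s := by
        rw [hs, add_zero]; ring
      have P8' : Near (1 + η) 6 (x (8 * (k + 1))) (x (8 * k) * s) := by
        rw [← e1]; exact P8
      have h := near_lower hη0.le hηle P8' (σ := ρ) (by norm_num; nlinarith)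
        (P0 0 (by norm_num))
      calc M * ρ ^ (k + 1) = M * ρ ^ k * ρ := by ring
        _ ≤ x (8 * k) * ρ := by gcongr
        _ ≤ _ := h
    · have e1 : x (8 * k + 2) / β ^ 2 = x (8 * k + 2) * s := by
        rw [hs]; ring
      have P10' : Near (1 + η) 12 (x (8 * (k + 1) + 2)) (x (8 * k + 2) * s) := by
        rw [← e1]; exact P10
      have h := near_lower hη0.le hηle P10' (σ := ρ) (by norm_num; linarith)
        (P0 2 (by norm_num))
      calc M * ρ ^ (k + 1) = M * ρ ^ k * ρ := by ring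
        _ ≤ x (8 * k + 2) * ρ := by gcongr
        _ ≤ _ := h
    · have h := near_dist hη0.le hηle P9 (by show x (8 * k + 1) ≤ 2; linarith [hc'.2])
      have h' : |x (8 * (k + 1) + 1) - x (8 * k + 1)| ≤ 2048 * η := h
      have e2 : η = C / M * (1 / ρ) ^ k := by
        rw [hη, one_div, inv_pow]; field_simp
      have e3 : (1 / ρ) ^ (k + 1) = (1 / ρ) ^ k * (1 / ρ) := pow_succ _ _
      have h5 : 2048 * (C / M) ≤ 1 / 4 * (1 - 1 / ρ) := by
        have : 1 / 4 * (1 - 1 / ρ) = (ρ - 1) / (4 * ρ) := by field_simp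
        rw [this, mul_div_assoc', div_le_div_iff₀ hM0 (by positivity)]
        nlinarith
      have h6 : 2048 * η ≤ 1 / 4 * (1 / ρ) ^ k - 1 / 4 * (1 / ρ) ^ (k + 1) := by
        rw [e2, e3]
        have := mul_le_mul_of_nonneg_right h5 hpw.le
        nlinarith
      calc |x (8 * (k + 1) + 1) - 1| ≤ |x (8 * (k + 1) + 1) - x (8 * k + 1)| + |x (8 * k + 1) - 1| := by
            have := abs_add_le (x (8 * (k + 1) + 1) - x (8 * k + 1)) (x (8 * k + 1) - 1)
            simpa using this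
        _ ≤ _ := by linarith
  have all : ∀ k : ℕ, M * ρ ^ k ≤ x (8 * k) ∧ M * ρ ^ k ≤ x (8 * k + 2) ∧
      |x (8 * k + 1) - 1| ≤ 1 / 2 - 1 / 4 * (1 / ρ) ^ k := by
    intro k
    induction k with
    | zero =>
      refine ⟨by simpa using hx0, by simpa using hx2, ?_⟩
      simp only [mul_zero, zero_add, pow_zero]
      linarith
    | succ k ih =>
      obtain ⟨h1, h2, h3⟩ := ih
      obtain ⟨-, h4⟩ := key k h1 h2 h3
      exact h4
  intro k
  obtain ⟨h1, h2, h3⟩ := all k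
  exact ⟨h1, h2, h3, (key k h1 h2 h3).1⟩

/-- the recursion, on triples -/
noncomputable def step (β : ℝ) (v : ℝ × ℝ × ℝ) : ℝ × ℝ × ℝ :=
  (v.2.1, v.2.2, (β * v.2.2 + v.2.1) / v.1)

/-- For every `0 < β < 1` there is `M` such that all initial values `a > M`, `3/4 < c < 5/4`,
`e > M` give a positive solution `x` of `x_{n+3} = (β x_{n+2} + x_{n+1}) / x_n` which is
unbounded. -/
theorem result : ∀ β : ℝ, 0 < β → β < 1 → ∃ M : ℝ, 0 < M ∧
    ∀ a c e : ℝ, M < a → 3 / 4 < c → c < 5 / 4 → M < e →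
      ∃ x : ℕ → ℝ, x 0 = a ∧ x 1 = c ∧ x 2 = e ∧ (∀ n, 0 < x n) ∧
        (∀ n, x (n + 3) = (β * x (n + 2) + x (n + 1)) / x n) ∧
        ¬ BddAbove (Set.range x) := by
  intro β hβ hβ1
  obtain ⟨M, ρ, hM, hρ, h⟩ := growth hβ hβ1
  refine ⟨M, hM, fun a c e ha hc1 hc2 he => ?_⟩
  set x : ℕ → ℝ := fun n => ((step β)^[n] (a, c, e)).1 with hxdef
  have e1 : ∀ n, x (n + 1) = ((step β)^[n] (a, c, e)).2.1 := fun n => by
    simp only [hxdef, Function.iterate_succ_apply', step]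
  have e2 : ∀ n, x (n + 2) = ((step β)^[n] (a, c, e)).2.2 := fun n => by
    simp only [hxdef, Function.iterate_succ_apply', step]
  have e3 : ∀ n, x (n + 3) = (β * x (n + 2) + x (n + 1)) / x n := fun n => by
    rw [e1, e2]
    simp only [hxdef, Function.iterate_succ_apply', step]
  have g := h x e3 (by simpa [hxdef] using ha.le)
    (by
      have : x 1 = c := by simp [hxdef, step]
      rw [this, abs_le]
      constructor <;> linarith)
    (by
      have : x 2 = e := by simp [hxdef, step]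
      rw [this]; exact he.le)
  refine ⟨x, by simp [hxdef], by simp [hxdef, step], by simp [hxdef, step], fun n => ?_, e3, ?_⟩
  · have := (g (n / 8)).2.2.2 (n % 8) (by omega)
    rwa [Nat.div_add_mod] at this
  · rintro ⟨B, hB⟩
    obtain ⟨k, hk⟩ := pow_unbounded_of_one_lt (B / M) hρ
    rw [div_lt_iff₀ hM] at hk
    have h1 := (g k).1
    have h2 : x (8 * k) ≤ B := hB (Set.mem_range_self _)
    linarith

end Pool.Agent.Results.MP_1cbbe5_an.UnboundedSolutions
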